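import Pool.Agent.Helper952_Jit.Defs

/-!
# The adversary argument
-/

set_option autoImplicit false

namespace Helper952Jit

variable {n : ℕ} {α : Type}

/-- The points at which a procedure evaluates. -/
def Proc.asked (F : Fin n → ℝ → ℝ) : Proc n α → List (Fin n × ℝ)
  | .ret _ => []
  | .eval i x next => (i, x) :: (next (F i x)).asked F

lemma Proc.asked_length (F : Fin n → ℝ → ℝ) (p : Proc n α) :
    (p.asked F).length = p.evals F := by
  induction p with
  | ret a => rfl
  | eval i x next ih => simp [Proc.asked, Proc.evals, ih]

/-- A procedure does not see the difference between functions that agree at its points. -/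
lemma Proc.out_congr {F F' : Fin n → ℝ → ℝ} (p : Proc n α)
    (h : ∀ q ∈ p.asked F, F q.1 q.2 = F' q.1 q.2) : p.out F' = p.out F := by
  induction p with
  | ret a => rfl
  | eval i x next ih =>
    have h1 : F i x = F' i x := h (i, x) (by simp [Proc.asked])
    have h2 := ih (F i x) (fun q hq => h q (by simp [Proc.asked, hq]))
    simp only [Proc.out]
    rw [← h1, h2]

/-- Among `m` disjoint targets one is missed by fewer than `m` questions. -/
lemma exists_unasked {β : Type} (L : List β) (m : ℕ) (hit : β → ℕ → Prop)
    (hdis : ∀ b s s', s < m → s' < m → hit b s → hit b s' → s = s') (hL : L.length < m) :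
    ∃ s < m, ∀ b ∈ L, ¬ hit b s := by
  classical
  by_contra hcon
  push Not at hcon
  have h1 : ∀ s, ∃ b, s < m → b ∈ L ∧ hit b s := by
    intro s
    by_cases hs : s < m
    · obtain ⟨b, hb, hb'⟩ := hcon s hs
      exact ⟨b, fun _ => ⟨hb, hb'⟩⟩
    · have hm : 0 < m := by omega
      obtain ⟨b, hb, hb'⟩ := hcon 0 hm
      exact ⟨b, fun h => absurd h hs⟩
  choose f hf using h1
  have h2 : (Finset.range m).card ≤ L.toFinset.card := by
    refine Finset.card_le_card_of_injOn f ?_ ?_
    · intro s hs
      have hs' : s < m := by simpa using hs
      simpa using (hf s hs').1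
    · intro s hs s' hs' hss
      have h3 : s < m := by simpa using hs
      have h4 : s' < m := by simpa using hs'
      exact hdis (f s) s s' h3 h4 (hf s h3).2 (by rw [hss]; exact (hf s' h4).2)
  rw [Finset.card_range] at h2
  have h3 := L.toFinset_card_le
  omega

end Helper952Jit
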