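import Pool.Agent.Helper952_Jit.Defs

/-!
# Counting lemmas, and the structure of sequences inside the windows
-/

set_option autoImplicit false

namespace Helper952Jit

section
variable {n : ℕ}

lemma cnt_zero (S : ℕ → Fin n) (i : Fin n) : cnt S i 0 = 0 := by simp [cnt]

lemma cnt_succ (S : ℕ → Fin n) (i : Fin n) (k : ℕ) :
    cnt S i (k + 1) = cnt S i k + if S (k + 1) = i then 1 else 0 := by
  unfold cnt
  have h : Finset.Icc 1 (k + 1) = insert (k + 1) (Finset.Icc 1 k) := by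
    ext x
    simp only [Finset.mem_Icc, Finset.mem_insert]
    omega
  rw [h, Finset.filter_insert]
  split_ifs with h1
  · rw [Finset.card_insert_of_notMem]
    simp
  · simp

lemma cnt_mono (S : ℕ → Fin n) (i : Fin n) {k l : ℕ} (h : k ≤ l) : cnt S i k ≤ cnt S i l := by
  induction l, h using Nat.le_induction with
  | base => exact le_rfl
  | succ l _ ih => rw [cnt_succ]; omega

lemma cnt_congr {S S' : ℕ → Fin n} (i : Fin n) {k : ℕ} (h : ∀ l, 1 ≤ l → l ≤ k → S l = S' l) :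
    cnt S i k = cnt S' i k := by
  unfold cnt
  congr 1
  refine Finset.filter_congr fun x hx => ?_
  rw [Finset.mem_Icc] at hx
  rw [h x hx.1 hx.2]

end

lemma cnt_sum3 (S : ℕ → Fin 3) (k : ℕ) : cnt S 0 k + cnt S 1 k + cnt S 2 k = k := by
  induction k with
  | zero => simp [cnt_zero]
  | succ k ih =>
    rw [cnt_succ, cnt_succ, cnt_succ]
    have h : ∀ a : Fin 3, (if a = 0 then 1 else 0) + (if a = 1 then 1 else 0) +
        (if a = 2 then 1 else 0) = 1 := by decide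
    have := h (S (k + 1))
    omega

/-- the demands -/
def dem (m : ℕ) : Fin 3 → ℕ := ![3 * m, 3 * m + 2, 1]

lemma dem_sum (m : ℕ) : ∑ j, dem m j = 6 * m + 3 := by
  rw [Fin.sum_univ_three]
  simp only [dem, Matrix.cons_val_zero, Matrix.cons_val_one, Matrix.cons_val]
  omega

/-- the state before the rare model -/
def stA (S : ℕ → Fin 3) (k : ℕ) : Prop :=
  cnt S 0 k = k / 2 ∧ cnt S 1 k = (k + 1) / 2 ∧ cnt S 2 k = 0

/-- the state after the rare model -/
def stB (S : ℕ → Fin 3) (k : ℕ) : Prop :=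
  cnt S 0 k = (k - 1) / 2 ∧ cnt S 1 k = k / 2 ∧ cnt S 2 k = 1

lemma stA_run {S : ℕ → Fin 3} {a b : ℕ} (ha : stA S a)
    (h : ∀ p, a < p → p ≤ b → S p = if p % 2 = 1 then 1 else 0) {k : ℕ} (hak : a ≤ k)
    (hkb : k ≤ b) : stA S k := by
  induction k, hak using Nat.le_induction with
  | base => exact ha
  | succ k hk ih =>
    obtain ⟨h0, h1, h2⟩ := ih (by omega)
    have h3 := h (k + 1) (by omega) hkb
    rcases Nat.mod_two_eq_zero_or_one (k + 1) with e | e
    · rw [if_neg (by omega)] at h3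
      refine ⟨?_, ?_, ?_⟩
      · rw [cnt_succ, h0, h3, if_pos rfl]; omega
      · rw [cnt_succ, h1, h3, if_neg (by decide)]; omega
      · rw [cnt_succ, h2, h3, if_neg (by decide)]
    · rw [if_pos e] at h3
      refine ⟨?_, ?_, ?_⟩
      · rw [cnt_succ, h0, h3, if_neg (by decide)]; omega
      · rw [cnt_succ, h1, h3, if_pos rfl]; omega
      · rw [cnt_succ, h2, h3, if_neg (by decide)]

lemma stB_run {S : ℕ → Fin 3} {a b : ℕ} (ha1 : 1 ≤ a) (ha : stB S a)
    (h : ∀ p, a < p → p ≤ b → S p = if p % 2 = 1 then 0 else 1) {k : ℕ} (hak : a ≤ k)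
    (hkb : k ≤ b) : stB S k := by
  induction k, hak using Nat.le_induction with
  | base => exact ha
  | succ k hk ih =>
    obtain ⟨h0, h1, h2⟩ := ih (by omega)
    have h3 := h (k + 1) (by omega) hkb
    rcases Nat.mod_two_eq_zero_or_one (k + 1) with e | e
    · rw [if_neg (by omega)] at h3
      refine ⟨?_, ?_, ?_⟩
      · rw [cnt_succ, h0, h3, if_neg (by decide)]; omega
      · rw [cnt_succ, h1, h3, if_pos rfl]; omega
      · rw [cnt_succ, h2, h3, if_neg (by decide)]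
    · rw [if_pos e] at h3
      refine ⟨?_, ?_, ?_⟩
      · rw [cnt_succ, h0, h3, if_pos rfl]; omega
      · rw [cnt_succ, h1, h3, if_neg (by decide)]; omega
      · rw [cnt_succ, h2, h3, if_neg (by decide)]

lemma stA_stB {S : ℕ → Fin 3} {a : ℕ} (ha : stA S a) (h : S (a + 1) = 2) : stB S (a + 1) := by
  obtain ⟨h0, h1, h2⟩ := ha
  refine ⟨?_, ?_, ?_⟩
  · rw [cnt_succ, h0, h, if_neg (by decide)]; omega
  · rw [cnt_succ, h1, h, if_neg (by decide)]; omega
  · rw [cnt_succ, h2, h, if_pos rfl]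

/-! ### A sequence inside the windows -/

/-- the sequence -/
def canon (m : ℕ) (p : ℕ) : Fin 3 :=
  if p = 1 then 0 else if p = 2 then 1 else if p < 2 * m + 3 then (if p % 2 = 1 then 1 else 0)
  else if p = 2 * m + 3 then 2 else if p < 6 * m + 3 then (if p % 2 = 1 then 0 else 1) else 1

lemma canon_one (m : ℕ) : cnt (canon m) 0 1 = 1 ∧ cnt (canon m) 1 1 = 0 ∧
    cnt (canon m) 2 1 = 0 := by
  refine ⟨?_, ?_, ?_⟩ <;> rw [cnt_succ, cnt_zero] <;> simp [canon]

lemma canon_A (m : ℕ) {k : ℕ} (h2 : 2 ≤ k) (hk : k ≤ 2 * m + 2) : stA (canon m) k := by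
  obtain ⟨h0, h1, h2'⟩ := canon_one m
  refine stA_run (a := 2) (b := 2 * m + 2) ⟨?_, ?_, ?_⟩ ?_ h2 hk
  · rw [cnt_succ, h0]; simp [canon]
  · rw [cnt_succ, h1]; simp [canon]
  · rw [cnt_succ, h2']; simp [canon]
  · intro p hp hp'
    rw [canon, if_neg (by omega), if_neg (by omega), if_pos (by omega)]

lemma canon_B (m : ℕ) {k : ℕ} (h2 : 2 * m + 3 ≤ k) (hk : k ≤ 6 * m + 2) : stB (canon m) k := by
  refine stB_run (a := 2 * m + 3) (b := 6 * m + 2) (by omega) ?_ ?_ h2 hk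
  · rcases Nat.eq_zero_or_pos m with rfl | hm
    · obtain ⟨h0, h1, h2'⟩ := canon_A 0 (k := 2) le_rfl (by omega)
      exact stA_stB ⟨h0, h1, h2'⟩ (by simp [canon])
    · refine stA_stB (canon_A m (k := 2 * m + 2) (by omega) le_rfl) ?_
      rw [canon, if_neg (by omega), if_neg (by omega), if_neg (by omega), if_pos (by omega)]
  · intro p hp hp'
    rw [canon, if_neg (by omega), if_neg (by omega), if_neg (by omega), if_neg (by omega),
      if_pos (by omega)]

lemma canon_end (m : ℕ) (hm : 1 ≤ m) : cnt (canon m) 0 (6 * m + 3) = 3 * m ∧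
    cnt (canon m) 1 (6 * m + 3) = 3 * m + 2 ∧ cnt (canon m) 2 (6 * m + 3) = 1 := by
  obtain ⟨h0, h1, h2⟩ := canon_B m (k := 6 * m + 2) (by omega) le_rfl
  have h3 : canon m (6 * m + 3) = 1 := by
    rw [canon, if_neg (by omega), if_neg (by omega), if_neg (by omega), if_neg (by omega),
      if_neg (by omega)]
  refine ⟨?_, ?_, ?_⟩
  · rw [cnt_succ, h0, h3, if_neg (by decide)]; omega
  · rw [cnt_succ, h1, h3, if_pos rfl]; omega
  · rw [cnt_succ, h2, h3, if_neg (by decide)]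

lemma canon_isSeq (m : ℕ) (hm : 1 ≤ m) : IsSeq (dem m) (canon m) := by
  obtain ⟨h0, h1, h2⟩ := canon_end m hm
  intro i
  rw [dem_sum]
  fin_cases i
  · exact h0
  · exact h1
  · exact h2

/-! ### Windows -/

/-- All the deviations of the first two models are inside the windows. -/
def Win (m : ℕ) (S : ℕ → Fin 3) : Prop := ∀ k, 1 ≤ k → k ≤ 6 * m + 3 →
  -(6 * m + 3 : ℤ) + 6 ≤ (2 * (cnt S 0 k : ℤ) - k) * (6 * m + 3) + 3 * k ∧
  (2 * (cnt S 0 k : ℤ) - k) * (6 * m + 3) + 3 * k ≤ 2 * (6 * m + 3) - 4 ∧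
  -2 * (6 * m + 3 : ℤ) ≤ (2 * (cnt S 1 k : ℤ) - k) * (6 * m + 3) - k ∧
  (2 * (cnt S 1 k : ℤ) - k) * (6 * m + 3) - k ≤ 6 * m + 3

lemma canon_win (m : ℕ) (hm : 1 ≤ m) : Win m (canon m) := by
  intro k hk1 hk
  rcases Nat.lt_or_ge k 2 with h | h
  · obtain rfl : k = 1 := by omega
    obtain ⟨h0, h1, _⟩ := canon_one m
    rw [h0, h1]
    push_cast
    refine ⟨?_, ?_, ?_, ?_⟩ <;> omega
  rcases Nat.lt_or_ge k (2 * m + 3) with h' | h'
  · obtain ⟨h0, h1, _⟩ := canon_A m h (by omega)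
    rw [h0, h1]
    rcases Nat.even_or_odd' k with ⟨j, rfl | rfl⟩
    · rw [show 2 * j / 2 = j by omega, show (2 * j + 1) / 2 = j by omega]
      push_cast
      refine ⟨?_, ?_, ?_, ?_⟩ <;> ring_nf <;> omega
    · rw [show (2 * j + 1) / 2 = j by omega, show (2 * j + 1 + 1) / 2 = j + 1 by omega]
      push_cast
      refine ⟨?_, ?_, ?_, ?_⟩ <;> ring_nf <;> omega
  rcases Nat.lt_or_ge k (6 * m + 3) with h'' | h''
  · obtain ⟨h0, h1, _⟩ := canon_B m h' (by omega)
    rw [h0, h1]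
    rcases Nat.even_or_odd' k with ⟨j, rfl | rfl⟩
    · rw [show (2 * j - 1) / 2 = j - 1 by omega, show 2 * j / 2 = j by omega]
      have : 1 ≤ j := by omega
      push_cast [this]
      refine ⟨?_, ?_, ?_, ?_⟩ <;> ring_nf <;> omega
    · rw [show (2 * j + 1 - 1) / 2 = j by omega, show (2 * j + 1) / 2 = j by omega]
      push_cast
      refine ⟨?_, ?_, ?_, ?_⟩ <;> ring_nf <;> omega
  · obtain rfl : k = 6 * m + 3 := by omega
    obtain ⟨h0, h1, _⟩ := canon_end m hm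
    rw [h0, h1]
    push_cast
    refine ⟨?_, ?_, ?_, ?_⟩ <;> nlinarith

/-- The structure in the middle. -/
lemma win_struct {m : ℕ} {S : ℕ → Fin 3} (hW : Win m S)
    (hS : cnt S 2 (6 * m + 3) = 1) {k : ℕ} (h1 : 2 * m + 2 ≤ k) (h2 : k ≤ 4 * m + 2) :
    (stA S k ∧ k ≤ 4 * m + 1) ∨ (stB S k ∧ 2 * m + 3 ≤ k) := by
  obtain ⟨w1, w2, w3, w4⟩ := hW k (by omega) (by omega)
  have hsum := cnt_sum3 S k
  have hz : cnt S 2 k ≤ 1 := hS ▸ cnt_mono S 2 (by omega)
  set x0 := cnt S 0 k with hx0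
  set x1 := cnt S 1 k with hx1
  set x2 := cnt S 2 k with hx2
  have hD : (0 : ℤ) < 6 * m + 3 := by positivity
  have a1 : -2 < 2 * (x1 : ℤ) - k := by
    by_contra hc
    push Not at hc
    have : (2 * (x1 : ℤ) - k) * (6 * m + 3) ≤ (-2) * (6 * m + 3) :=
      mul_le_mul_of_nonneg_right hc hD.le
    omega
  have a2 : 2 * (x1 : ℤ) - k < 2 := by
    by_contra hc
    push Not at hc
    have : 2 * (6 * (m : ℤ) + 3) ≤ (2 * (x1 : ℤ) - k) * (6 * m + 3) :=
      mul_le_mul_of_nonneg_right hc hD.le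
    omega
  have b0 : 2 * (x0 : ℤ) - k = -(2 * (x1 : ℤ) - k) - 2 * x2 := by
    have : (x0 : ℤ) + x1 + x2 = k := by exact_mod_cast hsum
    linarith
  rw [b0] at w1 w2
  have hcase : 2 * (x1 : ℤ) - k = -1 ∨ 2 * (x1 : ℤ) - k = 0 ∨ 2 * (x1 : ℤ) - k = 1 := by omega
  have hx2' : x2 = 0 ∨ x2 = 1 := by omega
  rcases hcase with c | c | c <;> rcases hx2' with z | z <;> rw [c, z] at w1 w2 <;>
    push_cast at w1 w2
  · exfalso; omega
  · right
    exact ⟨⟨by omega, by omega, z⟩, by omega⟩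
  · left
    exact ⟨⟨by omega, by omega, z⟩, by omega⟩
  · right
    exact ⟨⟨by omega, by omega, z⟩, by omega⟩
  · left
    exact ⟨⟨by omega, by omega, z⟩, by omega⟩
  · exfalso; omega

end Helper952Jit
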