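import Mathlib

/-!
# Just-in-time sequencing, total deviation: definitions
-/

set_option autoImplicit false

namespace Helper952Jit

/-- The number of copies of the model `i` among the positions `1, …, k` of the sequence `S`. -/
def cnt {n : ℕ} (S : ℕ → Fin n) (i : Fin n) (k : ℕ) : ℕ :=
  ((Finset.Icc 1 k).filter fun l => S l = i).card

/-- The positions `1, …, D` of `S`, where `D` is the sum of the demands, form a sequence in which
every model `i` occurs exactly `d i` times. -/
def IsSeq {n : ℕ} (d : Fin n → ℕ) (S : ℕ → Fin n) : Prop := ∀ i, cnt S i (∑ j, d j) = d i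

/-- The total deviation of a sequence. -/
noncomputable def totalDev {n : ℕ} (d : Fin n → ℕ) (F : Fin n → ℝ → ℝ) (S : ℕ → Fin n) : ℝ :=
  ∑ i, ∑ k ∈ Finset.Icc 1 (∑ j, d j), F i (cnt S i k - k * ((d i : ℝ) / ((∑ j, d j : ℕ) : ℝ)))

/-- `S` is an optimal sequence for the total deviation problem. -/
def Optimal {n : ℕ} (d : Fin n → ℕ) (F : Fin n → ℝ → ℝ) (S : ℕ → Fin n) : Prop :=
  IsSeq d S ∧ ∀ S', IsSeq d S' → totalDev d F S ≤ totalDev d F S'

/-- The deviation functions are convex, vanish at `0` and are positive elsewhere. -/
def Admissible {n : ℕ} (F : Fin n → ℝ → ℝ) : Prop :=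
  ∀ i, ConvexOn ℝ Set.univ (F i) ∧ F i 0 = 0 ∧ ∀ x, x ≠ 0 → 0 < F i x

/-- A procedure that can evaluate the functions `F i` at real points of its choice, one after the
other, and finally returns a result. It is the (possibly infinitely branching) tree of all its
possible runs: everything between two evaluations is for free. -/
inductive Proc (n : ℕ) (α : Type) : Type
  | ret (a : α) : Proc n α
  | eval (i : Fin n) (x : ℝ) (next : ℝ → Proc n α) : Proc n α

/-- The result of a procedure for given functions. -/
def Proc.out {n : ℕ} {α : Type} (F : Fin n → ℝ → ℝ) : Proc n α → α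
  | .ret a => a
  | .eval i x next => (next (F i x)).out F

/-- The number of evaluations in the run of a procedure for given functions. -/
def Proc.evals {n : ℕ} {α : Type} (F : Fin n → ℝ → ℝ) : Proc n α → ℕ
  | .ret _ => 0
  | .eval i x next => (next (F i x)).evals F + 1

/-- An algorithm for the total deviation problem: for every demand vector a preprocessing
procedure, which outputs some data, and for every position `k` a query procedure, which gets the
data and outputs a model. -/
structure Alg where
  Data : Type
  pre : (n : ℕ) → (Fin n → ℕ) → Proc n Data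
  query : (n : ℕ) → (Fin n → ℕ) → Data → ℕ → Proc n (Fin n)

/-- The answers to the queries for the positions `1, …, D` are the models at these positions of one
optimal sequence. -/
def Alg.Solves (A : Alg) (n : ℕ) (d : Fin n → ℕ) (F : Fin n → ℝ → ℝ) : Prop :=
  ∃ S, Optimal d F S ∧ ∀ k, 1 ≤ k → k ≤ ∑ j, d j →
    (A.query n d ((A.pre n d).out F) k).out F = S k

end Helper952Jit
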