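import Pool.Agent.Helper952_Jit.OptWin

/-!
# The cost of the time of the rare model
-/

set_option autoImplicit false

namespace Helper952Jit

/-- the difference of the costs for the unchanged functions -/
noncomputable def hb (m k : ℕ) : ℝ :=
  if k % 2 = 1 then (1 - tau m) * (1 - 2 * k / DD m)
  else taup m * (3 * k / DD m - 1) + tau m * (2 * k / DD m - 1)

/-- the point of the first kind -/
noncomputable def pA (m k : ℕ) : ℝ := 1 / 2 - k / (2 * DD m)

/-- the point of the second kind -/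
noncomputable def pB (m k : ℕ) : ℝ := -(1 / 2) - k / (2 * DD m)

variable {m k : ℕ} {F : Fin 3 → ℝ → ℝ}

lemma F2_diff (hk : (k : ℝ) ≤ DD m) :
    F2 m (-(k / DD m)) - F2 m (1 - k / DD m) = tau m * (2 * k / DD m - 1) := by
  have hD := DD_pos m
  have h1 : (0 : ℝ) ≤ (k : ℝ) / DD m := by positivity
  have h2 : (k : ℝ) / DD m ≤ 1 := by rw [div_le_one hD]; exact hk
  unfold F2
  rw [abs_neg, abs_of_nonneg h1, abs_of_nonneg (by linarith)]
  ring

lemma diff_odd (hF : Near m F) (hk1 : 2 * m + 3 ≤ k) (hk : k ≤ 4 * m + 1) (ho : k % 2 = 1) :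
    costA m F k - costB m F k = F 1 (pA m k) - F 1 (pB m k) + tau m * (2 * k / DD m - 1) := by
  have hD := DD_pos m
  obtain ⟨j, rfl⟩ : ∃ j, k = 2 * j + 1 := ⟨k / 2, by omega⟩
  have hkD : ((2 * j + 1 : ℕ) : ℝ) ≤ DD m := by
    have : ((2 * j + 1 : ℕ) : ℝ) ≤ ((6 * m + 3 : ℕ) : ℝ) := by exact_mod_cast (by omega)
    push_cast at this
    unfold DD; push_cast; linarith
  unfold costA costB
  rw [show (2 * j + 1) / 2 = j by omega, show (2 * j + 1 + 1) / 2 = j + 1 by omega,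
    show (2 * j + 1 - 1) / 2 = j by omega, dev1, dev1, dev2, dev2, hF.two]
  have e1 : ((((2 * ((j + 1 : ℕ) : ℤ) - (2 * j + 1 : ℕ)) * (6 * m + 3) - (2 * j + 1 : ℕ) : ℤ)) : ℝ)
      / (2 * DD m) = pA m (2 * j + 1) := by
    unfold pA
    have h : DD m ≠ 0 := hD.ne'
    field_simp
    push_cast
    unfold DD
    ring
  have e2 : ((((2 * (j : ℤ) - (2 * j + 1 : ℕ)) * (6 * m + 3) - (2 * j + 1 : ℕ) : ℤ)) : ℝ)
      / (2 * DD m) = pB m (2 * j + 1) := by
    unfold pB
    have h : DD m ≠ 0 := hD.ne'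
    field_simp
    push_cast
    unfold DD
    ring
  rw [e1, e2]
  have e3 := F2_diff (m := m) (k := 2 * j + 1) hkD
  rw [show (((0 : ℕ) : ℝ)) - ((2 * j + 1 : ℕ) : ℝ) / DD m = -(((2 * j + 1 : ℕ) : ℝ) / DD m) by
    push_cast; ring, show (((1 : ℕ) : ℝ)) = 1 by norm_num]
  linarith

lemma diff_even (hF : Near m F) (hk1 : 2 * m + 3 ≤ k) (hk : k ≤ 4 * m + 1) (he : k % 2 = 0) :
    costA m F k - costB m F k = hb m k := by
  have hD := DD_pos m
  obtain ⟨j, rfl⟩ : ∃ j, k = 2 * j := ⟨k / 2, by omega⟩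
  have hj1 : (1 : ℕ) ≤ j := by omega
  have hkD : ((2 * j : ℕ) : ℝ) ≤ DD m := by
    have : ((2 * j : ℕ) : ℝ) ≤ ((6 * m + 3 : ℕ) : ℝ) := by exact_mod_cast (by omega)
    push_cast at this
    unfold DD; push_cast; linarith
  unfold costA costB
  rw [show 2 * j / 2 = j by omega, show (2 * j + 1) / 2 = j by omega,
    show (2 * j - 1) / 2 = j - 1 by omega, dev0, dev0, dev2, dev2, hF.two, hF.zero]
  have e1 : ((((2 * (j : ℤ) - (2 * j : ℕ)) * (6 * m + 3) + 3 * (2 * j : ℕ) : ℤ)) : ℝ)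
      / (2 * DD m) = 3 * j / DD m := by
    have h : DD m ≠ 0 := hD.ne'
    field_simp
    push_cast
    ring
  have e2 : ((((2 * ((j - 1 : ℕ) : ℤ) - (2 * j : ℕ)) * (6 * m + 3) + 3 * (2 * j : ℕ) : ℤ)) : ℝ)
      / (2 * DD m) = 3 * j / DD m - 1 := by
    have h : DD m ≠ 0 := hD.ne'
    field_simp
    push_cast [hj1]
    unfold DD
    ring
  rw [e1, e2]
  have hj2 : (2 : ℝ) * j ≤ 4 * m := by exact_mod_cast (by omega : 2 * j ≤ 4 * m)
  have hj3 : (2 : ℝ) * m + 4 ≤ 2 * j := by exact_mod_cast (by omega : 2 * m + 4 ≤ 2 * j)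
  have hDe : DD m = 6 * m + 3 := rfl
  have hm0 : (0 : ℝ) ≤ m := Nat.cast_nonneg m
  have b1 : 3 * (j : ℝ) / DD m ≤ 1 - 2 / DD m := by
    rw [div_le_iff₀ hD]
    field_simp
    rw [hDe]; linarith
  have b2 : -(1 / 2 - 3 / DD m) ≤ 3 * (j : ℝ) / DD m := by
    rw [le_div_iff₀ hD]
    field_simp
    rw [hDe]; linarith
  have b3 : 3 * (j : ℝ) / DD m - 1 ≤ 1 - 2 / DD m := by linarith
  have b4 : -(1 / 2 - 3 / DD m) ≤ 3 * (j : ℝ) / DD m - 1 := by
    have : 1 / 2 + 3 / DD m ≤ 3 * (j : ℝ) / DD m := by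
      rw [le_div_iff₀ hD]
      field_simp
      rw [hDe]; linarith
    linarith
  rw [F0_in m b2 b1, F0_in m b4 b3]
  have a1 : 0 ≤ 3 * (j : ℝ) / DD m := by positivity
  have a2 : 3 * (j : ℝ) / DD m - 1 ≤ 0 := by
    have : 0 < 2 / DD m := by positivity
    linarith
  rw [abs_of_nonneg a1, abs_of_nonpos a2]
  have e3 := F2_diff (m := m) (k := 2 * j) hkD
  rw [show (((0 : ℕ) : ℝ)) - ((2 * j : ℕ) : ℝ) / DD m = -(((2 * j : ℕ) : ℝ) / DD m) by
    push_cast; ring, show (((1 : ℕ) : ℝ)) = 1 by norm_num]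
  unfold hb
  rw [if_neg (by omega)]
  have e4 : (3 : ℝ) * ((2 * j : ℕ) : ℝ) / DD m - 1 = 3 * (j : ℝ) / DD m +
      (3 * (j : ℝ) / DD m - 1) := by push_cast; ring
  rw [e4]
  linarith

lemma pA_pos (hk : k ≤ 4 * m + 1) : 0 < pA m k := by
  have hD := DD_pos m
  unfold pA
  rw [sub_pos, div_lt_iff₀ (by linarith)]
  have : (k : ℝ) ≤ 4 * m + 1 := by exact_mod_cast hk
  have hm0 : (0 : ℝ) ≤ m := Nat.cast_nonneg m
  unfold DD; linarith

lemma pB_neg : pB m k < 0 := by
  have hD := DD_pos m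
  unfold pB
  have : 0 ≤ (k : ℝ) / (2 * DD m) := by positivity
  linarith

lemma pB_ge (hk : k ≤ 4 * m + 1) : -1 ≤ pB m k := by
  have := pA_pos hk
  unfold pB
  unfold pA at this
  linarith

lemma F1_pA (hk : k ≤ 4 * m + 1) : F1 m (pA m k) = pA m k ^ 2 + 2 * pA m k := by
  have hD := DD_pos m
  have h := pA_pos hk
  have h2 : pA m k ≤ 1 / 2 := by
    unfold pA
    have : 0 ≤ (k : ℝ) / (2 * DD m) := by positivity
    linarith
  rw [F1_in m (by linarith) h2, max_eq_left h.le]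

lemma F1_pB (hk : k ≤ 4 * m + 1) : F1 m (pB m k) = pB m k ^ 2 := by
  have h := pB_neg (m := m) (k := k)
  rw [F1_in m (pB_ge hk) (by linarith), max_eq_right h.le]
  ring

lemma F1_diff (hk : k ≤ 4 * m + 1) : F1 m (pA m k) - F1 m (pB m k) = 1 - 2 * k / DD m := by
  have hD := (DD_pos m).ne'
  rw [F1_pA hk, F1_pB hk]
  unfold pA pB
  field_simp
  ring

/-- the functions of the two kinds -/
noncomputable def raiA (m l : ℕ) : Fin 3 → ℝ → ℝ := raised m (pA m l) 2

noncomputable def raiB (m l : ℕ) : Fin 3 → ℝ → ℝ := raised m (pB m l) 0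

lemma base_near (m : ℕ) : Near m (base m) :=
  ⟨rfl, fun _ => le_rfl, fun x => by change F1 m x ≤ F1 m x + 1; linarith, rfl⟩

lemma raised_far {p σ x : ℝ} (hσ : σ = 0 ∨ σ = 2) (h : ww m ≤ |x - p|) :
    raised m p σ 1 x = F1 m x := by
  change max (F1 m x) (tl m p σ x) = F1 m x
  refine max_eq_left ?_
  have h1 := tl_le m p hσ x
  have h2 : ww m ^ 2 ≤ (x - p) ^ 2 := by
    rw [← sq_abs (x - p)]
    exact pow_le_pow_left₀ (ww_pos m).le h 2
  linarith

lemma raised_at {p σ : ℝ} (h : F1 m p = p ^ 2 + σ * p) :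
    raised m p σ 1 p = F1 m p + ww m ^ 2 := by
  change max (F1 m p) (tl m p σ p) = F1 m p + ww m ^ 2
  have h1 : tl m p σ p = F1 m p + ww m ^ 2 := by
    rw [h]; unfold tl; ring
  rw [h1]
  refine max_eq_right ?_
  have := sq_nonneg (ww m)
  linarith

lemma ww_le_half (m : ℕ) : ww m ≤ 1 / 2 := by
  have hD := DD_pos m
  unfold ww
  rw [div_le_iff₀ (by linarith)]
  have hm0 : (0 : ℝ) ≤ m := Nat.cast_nonneg m
  unfold DD; linarith

lemma pA_sub (m k l : ℕ) : pA m k - pA m l = ((l : ℝ) - k) * ww m := by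
  unfold pA ww
  ring

lemma pB_sub (m k l : ℕ) : pB m k - pB m l = ((l : ℝ) - k) * ww m := by
  unfold pB ww
  ring

lemma abs_nat_sub {k l : ℕ} (h : k ≠ l) : (1 : ℝ) ≤ |(l : ℝ) - k| := by
  have h1 : (1 : ℤ) ≤ |(l : ℤ) - k| := Int.one_le_abs (by omega)
  exact_mod_cast h1

lemma cross_far {l : ℕ} (hk : k ≤ 4 * m + 1) : 1 / 2 ≤ pA m k - pB m l := by
  have h1 := pA_pos hk
  unfold pB
  have hD := DD_pos m
  have : 0 ≤ (l : ℝ) / (2 * DD m) := by positivity
  linarith

lemma raiA_diff {l : ℕ} (hl : l ≤ 4 * m + 1) (hlo : l % 2 = 1)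
    (hk1 : 2 * m + 3 ≤ k) (hk : k ≤ 4 * m + 1) :
    costA m (raiA m l) k - costB m (raiA m l) k = hb m k + if k = l then ww m ^ 2 else 0 := by
  have hN : Near m (raiA m l) := raised_near (Or.inr rfl)
  rcases Nat.mod_two_eq_zero_or_one k with he | ho
  · rw [diff_even hN hk1 hk he, if_neg (by rintro rfl; omega), add_zero]
  · rw [diff_odd hN hk1 hk ho]
    have e1 : raiA m l 1 (pB m k) = F1 m (pB m k) := by
      refine raised_far (Or.inr rfl) ?_
      have := cross_far (m := m) (k := l) (l := k) hl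
      have h2 := ww_le_half m
      rw [abs_sub_comm]
      exact le_trans (by linarith) (le_abs_self _)
    have e2 : raiA m l 1 (pA m k) = F1 m (pA m k) + if k = l then ww m ^ 2 else 0 := by
      split_ifs with h
      · subst h
        exact raised_at (F1_pA hk)
      · rw [add_zero]
        refine raised_far (Or.inr rfl) ?_
        rw [pA_sub, abs_mul, abs_of_pos (ww_pos m)]
        have := abs_nat_sub h
        have h2 := ww_pos m
        nlinarith
    rw [e1, e2]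
    have e3 := F1_diff (m := m) hk
    unfold hb
    rw [if_pos ho]
    linarith

lemma raiB_diff {l : ℕ} (hl : l ≤ 4 * m + 1) (hlo : l % 2 = 1)
    (hk1 : 2 * m + 3 ≤ k) (hk : k ≤ 4 * m + 1) :
    costA m (raiB m l) k - costB m (raiB m l) k = hb m k - if k = l then ww m ^ 2 else 0 := by
  have hN : Near m (raiB m l) := raised_near (Or.inl rfl)
  rcases Nat.mod_two_eq_zero_or_one k with he | ho
  · rw [diff_even hN hk1 hk he, if_neg (by rintro rfl; omega), sub_zero]
  · rw [diff_odd hN hk1 hk ho]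
    have e1 : raiB m l 1 (pA m k) = F1 m (pA m k) := by
      refine raised_far (Or.inl rfl) ?_
      have := cross_far (m := m) (k := k) (l := l) hk
      have h2 := ww_le_half m
      exact le_trans (by linarith) (le_abs_self _)
    have e2 : raiB m l 1 (pB m k) = F1 m (pB m k) + if k = l then ww m ^ 2 else 0 := by
      split_ifs with h
      · subst h
        exact raised_at (by rw [F1_pB hk]; ring)
      · rw [add_zero]
        refine raised_far (Or.inl rfl) ?_
        rw [pB_sub, abs_mul, abs_of_pos (ww_pos m)]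
        have := abs_nat_sub h
        have h2 := ww_pos m
        nlinarith
    rw [e1, e2]
    have e3 := F1_diff (m := m) hk
    unfold hb
    rw [if_pos ho]
    linarith

end Helper952Jit
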