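import Pool.Agent.Helper952_Jit.Swap

/-!
# The deviation functions
-/

set_option autoImplicit false

namespace Helper952Jit

/-- the number of positions, as a real number -/
noncomputable def DD (m : ℕ) : ℝ := 6 * m + 3

/-- the steep slope -/
noncomputable def KK (m : ℕ) : ℝ := 16 * DD m ^ 2

noncomputable def tau (m : ℕ) : ℝ := 1 / (2 * m - 1)

noncomputable def taup (m : ℕ) : ℝ := 1 / (3 * (m + 1))

noncomputable def F0 (m : ℕ) (x : ℝ) : ℝ :=
  taup m * |x| + KK m * max (x - (1 - 2 / DD m)) 0 + KK m * max (-(1 / 2 - 3 / DD m) - x) 0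

noncomputable def F1 (m : ℕ) (x : ℝ) : ℝ :=
  (x ^ 2 + 2 * max x 0) + KK m * max (x - 1 / 2) 0 + KK m * max (-1 - x) 0

noncomputable def F2 (m : ℕ) (x : ℝ) : ℝ := tau m * |x|

/-- the half distance of the points -/
noncomputable def ww (m : ℕ) : ℝ := 1 / (2 * DD m)

/-- the raised tangent -/
noncomputable def tl (m : ℕ) (p σ x : ℝ) : ℝ :=
  p ^ 2 + σ * p + ww m ^ 2 + (2 * p + σ) * (x - p)

noncomputable def base (m : ℕ) : Fin 3 → ℝ → ℝ := ![F0 m, F1 m, F2 m]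

noncomputable def raised (m : ℕ) (p σ : ℝ) : Fin 3 → ℝ → ℝ :=
  ![F0 m, fun x => max (F1 m x) (tl m p σ x), F2 m]

lemma DD_pos (m : ℕ) : 0 < DD m := by unfold DD; positivity

lemma KK_pos (m : ℕ) : 0 < KK m := by
  have := DD_pos m
  unfold KK; positivity

lemma ww_pos (m : ℕ) : 0 < ww m := by
  have := DD_pos m
  unfold ww; positivity

lemma tau_pos {m : ℕ} (hm : 1 ≤ m) : 0 < tau m := by
  have : (1 : ℝ) ≤ m := by exact_mod_cast hm
  unfold tau
  apply div_pos one_pos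
  linarith

lemma tau_le {m : ℕ} (hm : 1 ≤ m) : tau m ≤ 1 := by
  have : (1 : ℝ) ≤ m := by exact_mod_cast hm
  unfold tau
  rw [div_le_one (by linarith)]
  linarith

lemma taup_pos (m : ℕ) : 0 < taup m := by unfold taup; positivity

lemma taup_le (m : ℕ) : taup m ≤ 1 := by
  unfold taup
  rw [div_le_one (by positivity)]
  have : (0 : ℝ) ≤ m := Nat.cast_nonneg m
  linarith

lemma cvx_aff (a b : ℝ) : ConvexOn ℝ Set.univ (fun x : ℝ => a * x + b) := by
  refine ⟨convex_univ, ?_⟩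
  intro x _ y _ s t _ _ hst
  simp only [smul_eq_mul]
  have : b = (s + t) * b := by rw [hst, one_mul]
  nlinarith

lemma cvx_hinge (c : ℝ) (hc : 0 ≤ c) (a b : ℝ) :
    ConvexOn ℝ Set.univ (fun x : ℝ => c * max (a * x + b) 0) := by
  have h := ((cvx_aff a b).sup (convexOn_const (0 : ℝ) convex_univ)).smul hc
  exact h

lemma F0_cvx (m : ℕ) : ConvexOn ℝ Set.univ (F0 m) := by
  have h1 : ConvexOn ℝ Set.univ (fun x : ℝ => taup m * |x|) :=
    (convexOn_norm convex_univ).smul (taup_pos m).le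
  have h2 := cvx_hinge (KK m) (KK_pos m).le 1 (-(1 - 2 / DD m))
  have h3 := cvx_hinge (KK m) (KK_pos m).le (-1) (-(1 / 2 - 3 / DD m))
  have e : F0 m = ((fun x : ℝ => taup m * |x|) +
      (fun x : ℝ => KK m * max (1 * x + -(1 - 2 / DD m)) 0)) +
      (fun x : ℝ => KK m * max (-1 * x + -(1 / 2 - 3 / DD m)) 0) := by
    funext x
    have e1 : x - (1 - 2 / DD m) = 1 * x + -(1 - 2 / DD m) := by ring
    have e2 : -(1 / 2 - 3 / DD m) - x = -1 * x + -(1 / 2 - 3 / DD m) := by ring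
    simp only [F0, Pi.add_apply, e1, e2]
  rw [e]
  exact (h1.add h2).add h3

lemma F1_cvx (m : ℕ) : ConvexOn ℝ Set.univ (F1 m) := by
  have h1 : ConvexOn ℝ Set.univ (fun x : ℝ => x ^ 2) := Even.convexOn_pow even_two
  have h1' := cvx_hinge 2 (by norm_num) 1 0
  have h2 := cvx_hinge (KK m) (KK_pos m).le 1 (-(1 / 2))
  have h3 := cvx_hinge (KK m) (KK_pos m).le (-1) (-1)
  have e : F1 m = (((fun x : ℝ => x ^ 2) + (fun x : ℝ => 2 * max (1 * x + 0) 0)) +
      (fun x : ℝ => KK m * max (1 * x + -(1 / 2)) 0)) +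
      (fun x : ℝ => KK m * max (-1 * x + -1) 0) := by
    funext x
    have e0 : x = 1 * x + 0 := by ring
    have e1 : x - 1 / 2 = 1 * x + -(1 / 2) := by ring
    have e2 : -1 - x = -1 * x + -1 := by ring
    simp only [F1, Pi.add_apply, e1, e2]
    rw [← e0]
  rw [e]
  exact ((h1.add h1').add h2).add h3

lemma F2_cvx {m : ℕ} (hm : 1 ≤ m) : ConvexOn ℝ Set.univ (F2 m) :=
  (convexOn_norm convex_univ).smul (tau_pos hm).le

lemma tl_cvx (m : ℕ) (p σ : ℝ) : ConvexOn ℝ Set.univ (tl m p σ) := by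
  have h := cvx_aff (2 * p + σ) (p ^ 2 + σ * p + ww m ^ 2 - (2 * p + σ) * p)
  convert h using 1
  ext x
  simp only [tl]
  ring

lemma F0_ge (m : ℕ) (x : ℝ) : taup m * |x| ≤ F0 m x := by
  have h := (KK_pos m).le
  have h1 : 0 ≤ KK m * max (x - (1 - 2 / DD m)) 0 := mul_nonneg h (le_max_right _ _)
  have h2 : 0 ≤ KK m * max (-(1 / 2 - 3 / DD m) - x) 0 := mul_nonneg h (le_max_right _ _)
  unfold F0
  linarith

lemma F1_ge (m : ℕ) (x : ℝ) : x ^ 2 + 2 * max x 0 ≤ F1 m x := by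
  have h := (KK_pos m).le
  have h1 : 0 ≤ KK m * max (x - 1 / 2) 0 := mul_nonneg h (le_max_right _ _)
  have h2 : 0 ≤ KK m * max (-1 - x) 0 := mul_nonneg h (le_max_right _ _)
  unfold F1
  linarith

lemma F1_pos (m : ℕ) {x : ℝ} (hx : x ≠ 0) : 0 < F1 m x := by
  have h := F1_ge m x
  have h1 : 0 < x ^ 2 := by positivity
  have h2 : 0 ≤ max x 0 := le_max_right _ _
  linarith

lemma F1_in (m : ℕ) {x : ℝ} (h1 : -1 ≤ x) (h2 : x ≤ 1 / 2) : F1 m x = x ^ 2 + 2 * max x 0 := by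
  unfold F1
  rw [max_eq_right (show x - 1 / 2 ≤ 0 by linarith), max_eq_right (show -1 - x ≤ 0 by linarith)]
  ring

lemma F0_in (m : ℕ) {x : ℝ} (h1 : -(1 / 2 - 3 / DD m) ≤ x) (h2 : x ≤ 1 - 2 / DD m) :
    F0 m x = taup m * |x| := by
  unfold F0
  rw [max_eq_right (show x - (1 - 2 / DD m) ≤ 0 by linarith),
    max_eq_right (show -(1 / 2 - 3 / DD m) - x ≤ 0 by linarith)]
  ring

/-- The raised tangent is below the function away from its point. -/
lemma tl_le (m : ℕ) (p : ℝ) {σ : ℝ} (hσ : σ = 0 ∨ σ = 2) (x : ℝ) :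
    tl m p σ x ≤ F1 m x - ((x - p) ^ 2 - ww m ^ 2) := by
  have h := F1_ge m x
  have h1 : 0 ≤ max x 0 := le_max_right _ _
  have h2 : x ≤ max x 0 := le_max_left _ _
  rcases hσ with rfl | rfl
  · unfold tl
    nlinarith
  · unfold tl
    nlinarith

lemma base_adm {m : ℕ} (hm : 1 ≤ m) : Admissible (base m) := by
  have hD : (9 : ℝ) ≤ DD m := by
    have : (1 : ℝ) ≤ m := by exact_mod_cast hm
    unfold DD; linarith
  have h3 : 3 / DD m ≤ 1 / 2 := by
    rw [div_le_iff₀ (by linarith)]; linarith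
  have h2 : 2 / DD m ≤ 1 := by
    rw [div_le_iff₀ (by linarith)]; linarith
  intro i
  fin_cases i
  · refine ⟨F0_cvx m, ?_, ?_⟩
    · change F0 m 0 = 0
      rw [F0_in m (by linarith) (by linarith)]
      simp
    · intro x hx
      have := F0_ge m x
      have h4 := taup_pos m
      have h5 : 0 < |x| := abs_pos.2 hx
      have : 0 < taup m * |x| := mul_pos h4 h5
      change 0 < F0 m x
      linarith
  · refine ⟨F1_cvx m, ?_, ?_⟩
    · change F1 m 0 = 0
      rw [F1_in m (by norm_num) (by norm_num)]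
      simp
    · intro x hx
      exact F1_pos m hx
  · refine ⟨F2_cvx hm, ?_, ?_⟩
    · change F2 m 0 = 0
      simp [F2]
    · intro x hx
      change 0 < F2 m x
      exact mul_pos (tau_pos hm) (abs_pos.2 hx)

lemma raised_adm {m : ℕ} (hm : 1 ≤ m) {p σ : ℝ} (hσ : σ = 0 ∨ σ = 2) (hp : ww m < |p|) :
    Admissible (raised m p σ) := by
  intro i
  have hb := base_adm hm
  fin_cases i
  · exact hb 0
  · refine ⟨(F1_cvx m).sup (tl_cvx m p σ), ?_, ?_⟩
    · change max (F1 m 0) (tl m p σ 0) = 0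
      have h1 : F1 m 0 = 0 := (hb 1).2.1
      rw [h1, max_eq_left]
      have h2 := tl_le m p hσ 0
      rw [h1] at h2
      have h3 := ww_pos m
      have h4 : ww m ^ 2 < p ^ 2 := by
        rw [← sq_abs p]
        exact pow_lt_pow_left₀ hp h3.le (by norm_num)
      nlinarith
    · intro x hx
      exact lt_max_of_lt_left (F1_pos m hx)
  · exact hb 2

/-- What we need to know about the functions. -/
structure Near (m : ℕ) (F : Fin 3 → ℝ → ℝ) : Prop where
  zero : F 0 = F0 m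
  one_ge : ∀ x, F1 m x ≤ F 1 x
  one_le : ∀ x, F 1 x ≤ F1 m x + 1
  two : F 2 = F2 m

lemma raised_near {m : ℕ} {p σ : ℝ} (hσ : σ = 0 ∨ σ = 2) : Near m (raised m p σ) := by
  refine ⟨rfl, fun x => le_max_left _ _, fun x => ?_, rfl⟩
  change max (F1 m x) (tl m p σ x) ≤ F1 m x + 1
  refine max_le (by linarith) ?_
  have h := tl_le m p hσ x
  have h1 : ww m ≤ 1 := by
    unfold ww DD
    rw [div_le_one (by positivity)]
    have : (0 : ℝ) ≤ m := Nat.cast_nonneg m
    linarith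
  have h2 := ww_pos m
  nlinarith [sq_nonneg (x - p)]

lemma dev0 (m x k : ℕ) : (x : ℝ) - k * ((dem m 0 : ℝ) / ((6 * m + 3 : ℕ) : ℝ)) =
    ((((2 * (x : ℤ) - k) * (6 * m + 3) + 3 * k : ℤ)) : ℝ) / (2 * DD m) := by
  have : DD m ≠ 0 := (DD_pos m).ne'
  have h : ((6 * m + 3 : ℕ) : ℝ) = DD m := by unfold DD; push_cast; ring
  rw [h]
  have h2 : (dem m 0 : ℝ) = 3 * m := by simp [dem]
  rw [h2]
  push_cast
  rw [show (6 * (m : ℝ) + 3) = DD m from rfl]
  field_simp
  unfold DD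
  ring

lemma dev1 (m x k : ℕ) : (x : ℝ) - k * ((dem m 1 : ℝ) / ((6 * m + 3 : ℕ) : ℝ)) =
    ((((2 * (x : ℤ) - k) * (6 * m + 3) - k : ℤ)) : ℝ) / (2 * DD m) := by
  have : DD m ≠ 0 := (DD_pos m).ne'
  have h : ((6 * m + 3 : ℕ) : ℝ) = DD m := by unfold DD; push_cast; ring
  rw [h]
  have h2 : (dem m 1 : ℝ) = 3 * m + 2 := by simp [dem]
  rw [h2]
  push_cast
  rw [show (6 * (m : ℝ) + 3) = DD m from rfl]
  field_simp
  unfold DD
  ring

lemma dev2 (m x k : ℕ) : (x : ℝ) - k * ((dem m 2 : ℝ) / ((6 * m + 3 : ℕ) : ℝ)) =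
    x - k / DD m := by
  have h : ((6 * m + 3 : ℕ) : ℝ) = DD m := by unfold DD; push_cast; ring
  rw [h]
  simp [dem, div_eq_mul_inv]

end Helper952Jit
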