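import Pool.Agent.Helper952_Jit.Diff

/-!
# The sums of the costs
-/

set_option autoImplicit false

namespace Helper952Jit

variable {m : ℕ}

/-- the cost of the time `t` for the unchanged functions -/
noncomputable def gb (m t : ℕ) : ℝ := ∑ k ∈ Finset.Ico (2 * m + 3) t, hb m k

lemma gb_start (m : ℕ) : gb m (2 * m + 3) = 0 := by simp [gb]

lemma gb_succ {t : ℕ} (ht : 2 * m + 3 ≤ t) : gb m (t + 1) = gb m t + hb m t := by
  unfold gb
  rw [Finset.sum_Ico_succ_top ht]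

lemma hb_odd (hm : 1 ≤ m) (q : ℕ) : hb m (2 * m + 3 + 2 * q) =
    (2 * m - 2) * (2 * m - 3 - 4 * q) / (2 * m - 1) / DD m := by
  have hm1 : (1 : ℝ) ≤ m := by exact_mod_cast hm
  have hD := (DD_pos m).ne'
  have h1 : (2 * (m : ℝ) - 1) ≠ 0 := by
    have : (0 : ℝ) < 2 * m - 1 := by linarith
    exact this.ne'
  unfold hb
  rw [if_pos (by omega)]
  unfold tau
  field_simp
  push_cast
  unfold DD
  ring

lemma hb_even (hm : 1 ≤ m) (q : ℕ) : hb m (2 * m + 4 + 2 * q) =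
    ((3 + 2 * q) / (m + 1) - (2 * m - 5 - 4 * q) / (2 * m - 1)) / DD m := by
  have hm1 : (1 : ℝ) ≤ m := by exact_mod_cast hm
  have hD := (DD_pos m).ne'
  have h1 : (2 * (m : ℝ) - 1) ≠ 0 := by
    have : (0 : ℝ) < 2 * m - 1 := by linarith
    exact this.ne'
  have h2 : ((m : ℝ) + 1) ≠ 0 := by positivity
  unfold hb
  rw [if_neg (by omega)]
  unfold tau taup
  field_simp
  push_cast
  unfold DD
  ring

lemma gb_odd (hm : 1 ≤ m) (q : ℕ) : gb m (2 * m + 3 + 2 * q) =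
    q * ((4 * m ^ 2 - 8 * m + 5 - q * (4 * m - 6)) / (2 * m - 1) + (q + 2) / (m + 1)) / DD m := by
  have hm1 : (1 : ℝ) ≤ m := by exact_mod_cast hm
  have hD := (DD_pos m).ne'
  have h1 : (2 * (m : ℝ) - 1) ≠ 0 := by
    have : (0 : ℝ) < 2 * m - 1 := by linarith
    exact this.ne'
  have h2 : ((m : ℝ) + 1) ≠ 0 := by positivity
  induction q with
  | zero => simp [gb_start]
  | succ q ih =>
    rw [show 2 * m + 3 + 2 * (q + 1) = 2 * m + 3 + 2 * q + 1 + 1 by ring, gb_succ (by omega),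
      gb_succ (by omega), ih, hb_odd hm,
      show 2 * m + 3 + 2 * q + 1 = 2 * m + 4 + 2 * q by ring, hb_even hm]
    field_simp
    push_cast
    ring

lemma gb_even (hm : 1 ≤ m) (q : ℕ) : gb m (2 * m + 4 + 2 * q) =
    (m - 1 - q) * ((2 * m - 3) * (2 + 2 * q) / (2 * m - 1) - q / (m + 1)) / DD m := by
  have hm1 : (1 : ℝ) ≤ m := by exact_mod_cast hm
  have hD := (DD_pos m).ne'
  have h1 : (2 * (m : ℝ) - 1) ≠ 0 := by
    have : (0 : ℝ) < 2 * m - 1 := by linarith
    exact this.ne'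
  have h2 : ((m : ℝ) + 1) ≠ 0 := by positivity
  rw [show 2 * m + 4 + 2 * q = 2 * m + 3 + 2 * q + 1 by ring, gb_succ (by omega), gb_odd hm,
    hb_odd hm, ← add_div]
  congr 1
  have e1 : ((q : ℝ) + 2) / (m + 1) * q = (m - 1 - q) * (-(q / (m + 1))) + q := by
    field_simp
    ring
  have e2 : (q : ℝ) * ((4 * m ^ 2 - 8 * m + 5 - q * (4 * m - 6)) / (2 * m - 1)) +
      (2 * m - 2) * (2 * m - 3 - 4 * q) / (2 * m - 1) =
      (m - 1 - q) * ((2 * m - 3) * (2 + 2 * q) / (2 * m - 1)) - q := by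
    rw [mul_div_assoc', ← add_div, mul_div_assoc', div_sub' h1]
    congr 1
    ring
  linear_combination e1 + e2

lemma gb_end (hm : 1 ≤ m) : gb m (4 * m + 2) = 0 := by
  obtain ⟨q, rfl⟩ : ∃ q, m = q + 1 := ⟨m - 1, by omega⟩
  rw [show 4 * (q + 1) + 2 = 2 * (q + 1) + 4 + 2 * q by ring, gb_even hm]
  push_cast
  rw [show ((q : ℝ) + 1 - 1 - q) = 0 by ring]
  simp

/-- The cost of every time between the two ends is large. -/
lemma gb_mid (hm : 3 ≤ m) {t : ℕ} (h1 : 2 * m + 3 < t) (h2 : t < 4 * m + 2) :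
    1 / DD m ≤ gb m t := by
  have hD := DD_pos m
  have hm3 : (3 : ℝ) ≤ m := by exact_mod_cast hm
  have hd : (0 : ℝ) < 2 * m - 1 := by linarith
  have hd2 : (0 : ℝ) < m + 1 := by linarith
  rcases Nat.mod_two_eq_zero_or_one t with he | ho
  · obtain ⟨q, rfl⟩ : ∃ q, t = 2 * m + 4 + 2 * q := ⟨(t - (2 * m + 4)) / 2, by omega⟩
    rw [gb_even (by omega)]
    have hq : (q : ℝ) + 2 ≤ m := by exact_mod_cast (by omega : q + 2 ≤ m)
    have hq0 : (0 : ℝ) ≤ q := Nat.cast_nonneg q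
    have a1 : 3 / 5 * (2 + 2 * (q : ℝ)) ≤ (2 * m - 3) * (2 + 2 * q) / (2 * m - 1) := by
      rw [le_div_iff₀ hd]
      nlinarith
    have a2 : (q : ℝ) / (m + 1) ≤ q / 4 := by
      apply div_le_div_of_nonneg_left hq0 (by norm_num)
      linarith
    have a3 : 1 ≤ (2 * (m : ℝ) - 3) * (2 + 2 * q) / (2 * m - 1) - q / (m + 1) := by linarith
    apply div_le_div_of_nonneg_right _ hD.le
    have a4 : (1 : ℝ) ≤ m - 1 - q := by linarith
    nlinarith
  · obtain ⟨q, rfl⟩ : ∃ q, t = 2 * m + 3 + 2 * q := ⟨(t - (2 * m + 3)) / 2, by omega⟩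
    rw [gb_odd (by omega)]
    have hq : (q : ℝ) + 1 ≤ m := by exact_mod_cast (by omega : q + 1 ≤ m)
    have hq1 : (1 : ℝ) ≤ q := by exact_mod_cast (by omega : 1 ≤ q)
    have a1 : 1 ≤ (4 * (m : ℝ) ^ 2 - 8 * m + 5 - q * (4 * m - 6)) / (2 * m - 1) := by
      rw [le_div_iff₀ hd]
      nlinarith
    have a2 : 0 ≤ ((q : ℝ) + 2) / (m + 1) := by positivity
    apply div_le_div_of_nonneg_right _ hD.le
    nlinarith

lemma gs_raiA {l : ℕ} (hl1 : 2 * m + 3 ≤ l) (hl : l ≤ 4 * m + 1) (hlo : l % 2 = 1) {t : ℕ}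
    (ht : t ≤ 4 * m + 2) :
    gs m (raiA m l) t = gb m t + if l < t then ww m ^ 2 else 0 := by
  unfold gs gb
  rw [Finset.sum_congr rfl (g := fun k => hb m k + if k = l then ww m ^ 2 else 0)]
  · rw [Finset.sum_add_distrib, Finset.sum_ite_eq']
    congr 1
    simp only [Finset.mem_Ico]
    congr 1
    exact propext ⟨fun h => h.2, fun h => ⟨hl1, h⟩⟩
  · intro k hk
    rw [Finset.mem_Ico] at hk
    exact raiA_diff hl hlo hk.1 (by omega)

lemma gs_raiB {l : ℕ} (hl1 : 2 * m + 3 ≤ l) (hl : l ≤ 4 * m + 1) (hlo : l % 2 = 1) {t : ℕ}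
    (ht : t ≤ 4 * m + 2) :
    gs m (raiB m l) t = gb m t - if l < t then ww m ^ 2 else 0 := by
  unfold gs gb
  rw [Finset.sum_congr rfl (g := fun k => hb m k - if k = l then ww m ^ 2 else 0)]
  · rw [Finset.sum_sub_distrib, Finset.sum_ite_eq']
    congr 1
    simp only [Finset.mem_Ico]
    congr 1
    exact propext ⟨fun h => h.2, fun h => ⟨hl1, h⟩⟩
  · intro k hk
    rw [Finset.mem_Ico] at hk
    exact raiB_diff hl hlo hk.1 (by omega)

lemma ww_sq_lt (m : ℕ) : ww m ^ 2 < 1 / DD m := by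
  have hD := DD_pos m
  have h1 := ww_le_half m
  have h2 := ww_pos m
  have h3 : ww m < 1 / DD m := by
    unfold ww
    apply div_lt_div_of_pos_left one_pos hD
    linarith
  nlinarith

/-- For the functions of the first kind the rare model comes first. -/
lemma opt_raiA (hm : 3 ≤ m) {l : ℕ} (hl1 : 2 * m + 3 ≤ l) (hl : l ≤ 4 * m + 1) (hlo : l % 2 = 1)
    {S : ℕ → Fin 3} (hopt : Optimal (dem m) (raiA m l) S) : S (2 * m + 3) = 2 := by
  obtain ⟨t, h1, h2, h3, _, h5⟩ := opt_time hopt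
    (opt_win (by omega) (raised_near (Or.inr rfl)) hopt)
  have h6 := h5 (2 * m + 3) le_rfl (by omega)
  rw [gs_raiA hl1 hl hlo h2, gs_raiA hl1 hl hlo (by omega), gb_start,
    if_neg (show ¬ l < 2 * m + 3 by omega)] at h6
  have hw := ww_pos m
  have hD := DD_pos m
  rcases Nat.eq_or_lt_of_le h1 with e | e
  · rw [e]; exact h3
  exfalso
  rcases Nat.eq_or_lt_of_le h2 with e' | e'
  · rw [e', gb_end (by omega), if_pos (by omega)] at h6
    nlinarith
  · have h7 := gb_mid hm e e'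
    have h8 : 0 < 1 / DD m := by positivity
    have h9 : 0 ≤ if l < t then ww m ^ 2 else 0 := by
      split_ifs
      · positivity
      · exact le_rfl
    linarith

/-- For the functions of the second kind the rare model comes last. -/
lemma opt_raiB (hm : 3 ≤ m) {l : ℕ} (hl1 : 2 * m + 3 ≤ l) (hl : l ≤ 4 * m + 1) (hlo : l % 2 = 1)
    {S : ℕ → Fin 3} (hopt : Optimal (dem m) (raiB m l) S) : S (2 * m + 3) ≠ 2 := by
  obtain ⟨t, h1, h2, _, h4, h5⟩ := opt_time hopt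
    (opt_win (by omega) (raised_near (Or.inl rfl)) hopt)
  have h6 := h5 (4 * m + 2) (by omega) le_rfl
  rw [gs_raiB hl1 hl hlo h2, gs_raiB hl1 hl hlo le_rfl, gb_end (by omega),
    if_pos (show l < 4 * m + 2 by omega)] at h6
  have hw := ww_pos m
  have hD := DD_pos m
  have hww : 0 < ww m ^ 2 := by positivity
  have hwl := ww_sq_lt m
  have ht : t = 4 * m + 2 := by
    rcases Nat.eq_or_lt_of_le h2 with e' | e'
    · exact e'
    exfalso
    rcases Nat.eq_or_lt_of_le h1 with e | e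
    · rw [← e, gb_start, if_neg (by omega)] at h6
      linarith
    · have h7 := gb_mid hm e e'
      have h9 : (if l < t then ww m ^ 2 else 0) ≤ ww m ^ 2 := by
        split_ifs
        · exact le_rfl
        · exact hww.le
      linarith
  subst ht
  intro hS
  have a1 := cnt_mono S 2 (show 2 * m + 3 ≤ 4 * m + 2 - 1 by omega)
  have a2 : cnt S 2 (2 * m + 3) = cnt S 2 (2 * m + 2) + if S (2 * m + 3) = 2 then 1 else 0 :=
    cnt_succ S 2 (2 * m + 2)
  rw [if_pos hS] at a2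
  omega

end Helper952Jit
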