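import Pool.Agent.Helper952_Jit.Adv
import Pool.Agent.Helper952_Jit.Sums

/-!
# The lower bound for the number of evaluations
-/

set_option autoImplicit false

namespace Helper952Jit

variable {m : ℕ}

/-- the function is asked near one of the two points of the time `2m+3+2s` -/
def hit (m : ℕ) (b : Fin 3 × ℝ) (s : ℕ) : Prop :=
  b.1 = 1 ∧ (|b.2 - pA m (2 * m + 3 + 2 * s)| < ww m ∨ |b.2 - pB m (2 * m + 3 + 2 * s)| < ww m)

lemma hit_dis (m : ℕ) (b : Fin 3 × ℝ) (s s' : ℕ) (hs : s < m) (hs' : s' < m) (h : hit m b s)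
    (h' : hit m b s') : s = s' := by
  by_contra hne
  have hw := ww_pos m
  have hw2 : ww m ≤ 1 / 6 := by
    have hm1 : (1 : ℝ) ≤ m := by exact_mod_cast (by omega : 1 ≤ m)
    unfold ww DD
    rw [div_le_div_iff₀ (by linarith) (by norm_num)]
    linarith
  set l := 2 * m + 3 + 2 * s with hl
  set l' := 2 * m + 3 + 2 * s' with hl'
  have hd : (2 : ℝ) ≤ |(l' : ℝ) - l| := by
    have h1 : (2 : ℤ) ≤ |(l' : ℤ) - l| := by
      rw [le_abs]
      omega
    exact_mod_cast h1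
  have key : ∀ x y z : ℝ, |x - y| < ww m → |x - z| < ww m → |y - z| < 2 * ww m := by
    intro x y z h1 h2
    have h3 : |y - z| ≤ |y - x| + |x - z| := abs_sub_le y x z
    rw [abs_sub_comm y x] at h3
    linarith
  rcases h.2 with a | a <;> rcases h'.2 with c | c
  · have k := key _ _ _ a c
    rw [pA_sub, abs_mul, abs_of_pos hw] at k
    nlinarith
  · have k := key _ _ _ a c
    have k2 := cross_far (m := m) (k := l) (l := l') (by omega)
    have k3 := le_abs_self (pA m l - pB m l')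
    linarith
  · have k := key _ _ _ c a
    have k2 := cross_far (m := m) (k := l') (l := l) (by omega)
    have k3 := le_abs_self (pA m l' - pB m l)
    linarith
  · have k := key _ _ _ a c
    rw [pB_sub, abs_mul, abs_of_pos hw] at k
    nlinarith

lemma pA_abs {l : ℕ} (hl : l ≤ 4 * m + 1) : ww m < |pA m l| := by
  have hD := DD_pos m
  rw [abs_of_pos (pA_pos hl)]
  unfold pA ww
  have hl' : (l : ℝ) ≤ 4 * m + 1 := by exact_mod_cast hl
  have hm0 : (0 : ℝ) ≤ m := Nat.cast_nonneg m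
  rw [lt_sub_iff_add_lt, ← add_div, div_lt_iff₀ (by linarith)]
  unfold DD
  linarith

lemma pB_abs {l : ℕ} (hm : 1 ≤ m) : ww m < |pB m l| := by
  have hD := DD_pos m
  have h1 : 0 ≤ (l : ℝ) / (2 * DD m) := by positivity
  rw [abs_of_neg pB_neg]
  unfold pB ww
  have hm1 : (1 : ℝ) ≤ m := by exact_mod_cast hm
  have h2 : 1 / (2 * DD m) < 1 / 2 := by
    rw [div_lt_div_iff₀ (by linarith) (by norm_num)]
    unfold DD
    linarith
  linarith

lemma agree {p σ : ℝ} (hσ : σ = 0 ∨ σ = 2) {b : Fin 3 × ℝ}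
    (h : ¬ (b.1 = 1 ∧ |b.2 - p| < ww m)) : base m b.1 b.2 = raised m p σ b.1 b.2 := by
  obtain ⟨i, x⟩ := b
  fin_cases i
  · rfl
  · have h1 : ww m ≤ |x - p| := by
      by_contra hc
      exact h ⟨rfl, not_le.1 hc⟩
    exact (raised_far hσ h1).symm
  · rfl

/-- The lower bound for one query. -/
theorem query_bound {Data : Type} (hm : 3 ≤ m) (pre : Proc 3 Data) (q : Data → Proc 3 (Fin 3))
    (hsol : ∀ F, Admissible F →
      ∃ S, Optimal (dem m) F S ∧ (q (pre.out F)).out F = S (2 * m + 3)) :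
    m ≤ pre.evals (base m) + (q (pre.out (base m))).evals (base m) := by
  classical
  by_contra hlt
  push Not at hlt
  set L := pre.asked (base m) ++ (q (pre.out (base m))).asked (base m) with hL
  have hlen : L.length < m := by
    rw [hL, List.length_append, Proc.asked_length, Proc.asked_length]
    exact hlt
  obtain ⟨s, hs, hun⟩ := exists_unasked L m (hit m) (hit_dis m) hlen
  set l := 2 * m + 3 + 2 * s with hl
  have hl4 : l ≤ 4 * m + 1 := by omega
  have hlo : l % 2 = 1 := by omega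
  have main : ∀ F : Fin 3 → ℝ → ℝ, (∀ b ∈ L, base m b.1 b.2 = F b.1 b.2) →
      (q (pre.out F)).out F = (q (pre.out (base m))).out (base m) := by
    intro F hF
    have h1 : pre.out F = pre.out (base m) :=
      Proc.out_congr pre fun b hb => hF b (by rw [hL]; exact List.mem_append_left _ hb)
    rw [h1]
    exact Proc.out_congr _ fun b hb => hF b (by rw [hL]; exact List.mem_append_right _ hb)
  have hA : ∀ b ∈ L, base m b.1 b.2 = raiA m l b.1 b.2 := fun b hb =>
    agree (Or.inr rfl) fun hc => hun b hb ⟨hc.1, Or.inl hc.2⟩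
  have hB : ∀ b ∈ L, base m b.1 b.2 = raiB m l b.1 b.2 := fun b hb =>
    agree (Or.inl rfl) fun hc => hun b hb ⟨hc.1, Or.inr hc.2⟩
  obtain ⟨SA, hSA, hoA⟩ := hsol (raiA m l) (raised_adm (by omega) (Or.inr rfl) (pA_abs hl4))
  obtain ⟨SB, hSB, hoB⟩ := hsol (raiB m l) (raised_adm (by omega) (Or.inl rfl)
    (pB_abs (by omega)))
  rw [main _ hA, opt_raiA hm (by omega) hl4 hlo hSA] at hoA
  rw [main _ hB, hoA] at hoB
  exact opt_raiB hm (by omega) hl4 hlo hSB hoB.symm

/-- The lower bound for algorithms. -/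
theorem alg_bound (A : Alg) (hm : 3 ≤ m)
    (hsol : ∀ F, Admissible F → A.Solves 3 ![3 * m, 3 * m + 2, 1] F) :
    ∃ F, Admissible F ∧ m ≤ (A.pre 3 ![3 * m, 3 * m + 2, 1]).evals F +
      (A.query 3 ![3 * m, 3 * m + 2, 1] ((A.pre 3 ![3 * m, 3 * m + 2, 1]).out F)
        (2 * m + 3)).evals F := by
  refine ⟨base m, base_adm (by omega), ?_⟩
  refine query_bound hm (A.pre 3 (dem m)) (fun x => A.query 3 (dem m) x (2 * m + 3)) ?_
  intro F hF
  obtain ⟨S, h1, h2⟩ := hsol F hF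
  refine ⟨S, h1, ?_⟩
  have hsum : ∑ j, (![3 * m, 3 * m + 2, 1] : Fin 3 → ℕ) j = 6 * m + 3 := dem_sum m
  exact h2 (2 * m + 3) (by omega) (by rw [hsum]; omega)

/-! ### No polynomial bound -/

lemma growth1 (c : ℕ) : 2 * c ^ 2 + 9 * c + 9 < 2 ^ (2 * c + 8) := by
  induction c with
  | zero => norm_num
  | succ c ih =>
    have h : 2 ^ (2 * (c + 1) + 8) = 4 * 2 ^ (2 * c + 8) := by
      rw [show 2 * (c + 1) + 8 = (2 * c + 8) + 2 by ring, pow_add]
      ring
    rw [h]
    nlinarith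

/-- Powers of two beat polynomials. -/
lemma growth (c : ℕ) : ∃ N, 2 ≤ N ∧ 2 * (N + 8) ^ c < 2 ^ N := by
  refine ⟨2 ^ (2 * c + 8) - 8, ?_, ?_⟩
  · have : 2 ^ 8 ≤ 2 ^ (2 * c + 8) := Nat.pow_le_pow_right (by norm_num) (by omega)
    omega
  · have h8 : 2 ^ 8 ≤ 2 ^ (2 * c + 8) := Nat.pow_le_pow_right (by norm_num) (by omega)
    have h1 : 2 ^ (2 * c + 8) - 8 + 8 = 2 ^ (2 * c + 8) := by omega
    rw [h1, ← pow_mul]
    have h2 : 2 * 2 ^ ((2 * c + 8) * c) = 2 ^ ((2 * c + 8) * c + 1) := by rw [pow_succ]; ring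
    rw [h2]
    apply Nat.pow_lt_pow_right (by norm_num)
    have := growth1 c
    have h3 : (2 * c + 8) * c + 1 + 8 < 2 ^ (2 * c + 8) := by nlinarith
    omega

/-- No algorithm has polynomial bounds. -/
theorem no_poly (A : Alg) (c : ℕ)
    (hsol : ∀ (n : ℕ) (d : Fin n → ℕ) (F : Fin n → ℝ → ℝ), (∀ i, 0 < d i) → Admissible F →
      A.Solves n d F ∧ (A.pre n d).evals F ≤ (n + Nat.log 2 (∑ j, d j) + 2) ^ c ∧
      ∀ k, 1 ≤ k → k ≤ ∑ j, d j → (A.query n d ((A.pre n d).out F) k).evals F ≤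
        (n + Nat.log 2 (∑ j, d j) + 2) ^ c) : False := by
  obtain ⟨N, hN, hNc⟩ := growth c
  set m := 2 ^ N with hm
  have hm4 : 4 ≤ m := by
    rw [hm]
    calc 4 = 2 ^ 2 := by norm_num
      _ ≤ 2 ^ N := Nat.pow_le_pow_right (by norm_num) hN
  have hpos : ∀ i, 0 < (![3 * m, 3 * m + 2, 1] : Fin 3 → ℕ) i := by
    intro i
    fin_cases i
    · change 0 < 3 * m; omega
    · change 0 < 3 * m + 2; omega
    · change 0 < 1; omega
  have hsum : ∑ j, (![3 * m, 3 * m + 2, 1] : Fin 3 → ℕ) j = 6 * m + 3 := dem_sum m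
  obtain ⟨F, hF, hle⟩ := alg_bound A (show 3 ≤ m by omega)
    (fun F hF => (hsol 3 _ F hpos hF).1)
  obtain ⟨_, h1, h2⟩ := hsol 3 _ F hpos hF
  have h3 := h2 (2 * m + 3) (by omega) (by rw [hsum]; omega)
  rw [hsum] at h1 h3
  have hlog : Nat.log 2 (6 * m + 3) ≤ N + 3 := by
    have : Nat.log 2 (6 * m + 3) < N + 4 := by
      apply Nat.log_lt_of_lt_pow (by omega)
      rw [pow_add, ← hm]
      omega
    omega
  have h4 : (3 + Nat.log 2 (6 * m + 3) + 2) ^ c ≤ (N + 8) ^ c :=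
    Nat.pow_le_pow_left (by omega) c
  omega

end Helper952Jit
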