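import Pool.Agent.Helper952_Jit.Fun

/-!
# Optimal sequences stay inside the windows
-/

set_option autoImplicit false

namespace Helper952Jit

variable {m : ℕ} {F : Fin 3 → ℝ → ℝ} {S : ℕ → Fin 3}

lemma F0_nonneg (m : ℕ) (x : ℝ) : 0 ≤ F0 m x :=
  le_trans (mul_nonneg (taup_pos m).le (abs_nonneg x)) (F0_ge m x)

lemma F1_nonneg (m : ℕ) (x : ℝ) : 0 ≤ F1 m x :=
  le_trans (add_nonneg (sq_nonneg x) (mul_nonneg (by norm_num) (le_max_right _ _))) (F1_ge m x)

lemma F2_nonneg (hm : 1 ≤ m) (x : ℝ) : 0 ≤ F2 m x :=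
  mul_nonneg (tau_pos hm).le (abs_nonneg x)

lemma near_nonneg (hm : 1 ≤ m) (h : Near m F) (i : Fin 3) (x : ℝ) : 0 ≤ F i x := by
  fin_cases i
  · change 0 ≤ F 0 x
    rw [h.zero]; exact F0_nonneg m x
  · exact le_trans (F1_nonneg m x) (h.one_ge x)
  · change 0 ≤ F 2 x
    rw [h.two]; exact F2_nonneg hm x

lemma tc_nonneg (hm : 1 ≤ m) (h : Near m F) (k : ℕ) : 0 ≤ tc m F S k :=
  Finset.sum_nonneg fun i _ => near_nonneg hm h i _

lemma totalDev_ge (hm : 1 ≤ m) (h : Near m F) (i : Fin 3) {k : ℕ} (hk1 : 1 ≤ k)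
    (hk : k ≤ 6 * m + 3) :
    F i (cnt S i k - k * ((dem m i : ℝ) / ((6 * m + 3 : ℕ) : ℝ))) ≤ totalDev (dem m) F S := by
  rw [totalDev_eq]
  have h1 : tc m F S k ≤ ∑ k ∈ Finset.Icc 1 (6 * m + 3), tc m F S k :=
    Finset.single_le_sum (f := fun k => tc m F S k) (fun k _ => tc_nonneg hm h k)
      (Finset.mem_Icc.2 ⟨hk1, hk⟩)
  refine le_trans ?_ h1
  unfold tc
  exact Finset.single_le_sum
    (f := fun i => F i (cnt S i k - k * ((dem m i : ℝ) / ((6 * m + 3 : ℕ) : ℝ))))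
    (fun i _ => near_nonneg hm h i _) (Finset.mem_univ i)

lemma canon_le (hm : 1 ≤ m) (h : Near m F) : totalDev (dem m) F (canon m) ≤ 5 * DD m := by
  have hD := DD_pos m
  rw [totalDev_eq]
  have h1 : ∀ k ∈ Finset.Icc 1 (6 * m + 3), tc m F (canon m) k ≤ 5 := by
    intro k hk
    rw [Finset.mem_Icc] at hk
    obtain ⟨w1, w2, w3, w4⟩ := canon_win m hm k hk.1 hk.2
    have hz : cnt (canon m) 2 k ≤ 1 := by
      rw [← (canon_end m hm).2.2]
      exact cnt_mono _ 2 hk.2
    unfold tc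
    rw [Fin.sum_univ_three, dev0, dev1, dev2]
    have e1 : F 0 ((((2 * (cnt (canon m) 0 k : ℤ) - k) * (6 * m + 3) + 3 * k : ℤ) : ℝ) /
        (2 * DD m)) ≤ 1 := by
      rw [h.zero]
      set w := (2 * (cnt (canon m) 0 k : ℤ) - k) * (6 * m + 3) + 3 * k with hw
      have c1 : -DD m + 6 ≤ (w : ℝ) := by
        have : ((-(6 * m + 3 : ℤ) + 6 : ℤ) : ℝ) ≤ (w : ℝ) := by exact_mod_cast w1
        push_cast at this
        unfold DD; linarith
      have c2 : (w : ℝ) ≤ 2 * DD m - 4 := by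
        have : (w : ℝ) ≤ ((2 * (6 * m + 3) - 4 : ℤ) : ℝ) := by exact_mod_cast w2
        push_cast at this
        unfold DD; linarith
      have d1 : -(1 / 2 - 3 / DD m) ≤ (w : ℝ) / (2 * DD m) := by
        rw [le_div_iff₀ (by linarith)]
        field_simp
        linarith
      have d2 : (w : ℝ) / (2 * DD m) ≤ 1 - 2 / DD m := by
        rw [div_le_iff₀ (by linarith)]
        field_simp
        linarith
      rw [F0_in m d1 d2]
      have d3 : |(w : ℝ) / (2 * DD m)| ≤ 1 := by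
        rw [abs_le]
        constructor
        · rw [le_div_iff₀ (by linarith)]; linarith
        · rw [div_le_iff₀ (by linarith)]; linarith
      calc taup m * |(w : ℝ) / (2 * DD m)| ≤ 1 * 1 :=
            mul_le_mul (taup_le m) d3 (abs_nonneg _) (by norm_num)
        _ = 1 := by norm_num
    have e2 : F 1 ((((2 * (cnt (canon m) 1 k : ℤ) - k) * (6 * m + 3) - k : ℤ) : ℝ) /
        (2 * DD m)) ≤ 3 := by
      refine le_trans (h.one_le _) ?_
      set w := (2 * (cnt (canon m) 1 k : ℤ) - k) * (6 * m + 3) - k with hw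
      have c1 : -2 * DD m ≤ (w : ℝ) := by
        have : ((-2 * (6 * m + 3 : ℤ) : ℤ) : ℝ) ≤ (w : ℝ) := by exact_mod_cast w3
        push_cast at this
        unfold DD; linarith
      have c2 : (w : ℝ) ≤ DD m := by
        have : (w : ℝ) ≤ ((6 * m + 3 : ℤ) : ℝ) := by exact_mod_cast w4
        push_cast at this
        unfold DD; linarith
      have d1 : -1 ≤ (w : ℝ) / (2 * DD m) := by
        rw [le_div_iff₀ (by linarith)]
        linarith
      have d2 : (w : ℝ) / (2 * DD m) ≤ 1 / 2 := by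
        rw [div_le_iff₀ (by linarith)]
        linarith
      rw [F1_in m d1 d2]
      have d3 : max ((w : ℝ) / (2 * DD m)) 0 ≤ 1 / 2 := max_le d2 (by norm_num)
      have d4 : ((w : ℝ) / (2 * DD m)) ^ 2 ≤ 1 := by nlinarith
      linarith
    have e3 : F 2 ((cnt (canon m) 2 k : ℝ) - k / DD m) ≤ 1 := by
      rw [h.two]
      unfold F2
      have c1 : (0 : ℝ) ≤ (k : ℝ) / DD m := by positivity
      have c2 : (k : ℝ) / DD m ≤ 1 := by
        rw [div_le_one hD]
        have : (k : ℝ) ≤ ((6 * m + 3 : ℕ) : ℝ) := by exact_mod_cast hk.2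
        push_cast at this
        unfold DD; linarith
      have c3 : (cnt (canon m) 2 k : ℝ) ≤ 1 := by exact_mod_cast hz
      have c4 : (0 : ℝ) ≤ (cnt (canon m) 2 k : ℝ) := Nat.cast_nonneg _
      have c5 : |(cnt (canon m) 2 k : ℝ) - k / DD m| ≤ 1 := by
        rw [abs_le]
        constructor <;> linarith
      calc tau m * |(cnt (canon m) 2 k : ℝ) - k / DD m| ≤ 1 * 1 :=
            mul_le_mul (tau_le hm) c5 (abs_nonneg _) (by norm_num)
        _ = 1 := by norm_num
    linarith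
  refine le_trans (Finset.sum_le_sum h1) ?_
  rw [Finset.sum_const, Nat.card_Icc, nsmul_eq_mul]
  unfold DD
  push_cast
  linarith

/-- An optimal sequence is inside the windows. -/
lemma opt_win (hm : 1 ≤ m) (h : Near m F) (hopt : Optimal (dem m) F S) : Win m S := by
  have hD := DD_pos m
  have hK : KK m * (1 / (2 * DD m)) = 8 * DD m := by
    unfold KK; field_simp; norm_num
  have hKp := KK_pos m
  have hle : totalDev (dem m) F S ≤ 5 * DD m :=
    le_trans (hopt.2 _ (canon_isSeq m hm)) (canon_le hm h)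
  have hall : ∀ i, ∀ k, 1 ≤ k → k ≤ 6 * m + 3 →
      F i (cnt S i k - k * ((dem m i : ℝ) / ((6 * m + 3 : ℕ) : ℝ))) < 8 * DD m := by
    intro i k hk1 hk
    have := totalDev_ge (S := S) hm h i hk1 hk
    linarith
  intro k hk1 hk
  have a0 := hall 0 k hk1 hk
  have a1 := hall 1 k hk1 hk
  rw [dev0, h.zero] at a0
  rw [dev1] at a1
  replace a1 := lt_of_le_of_lt (h.one_ge _) a1
  set w := (2 * (cnt S 0 k : ℤ) - k) * (6 * m + 3) + 3 * k with hw
  set v := (2 * (cnt S 1 k : ℤ) - k) * (6 * m + 3) - k with hv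
  have hax := mul_nonneg (taup_pos m).le (abs_nonneg ((w : ℝ) / (2 * DD m)))
  have hay : 0 ≤ KK m * max ((w : ℝ) / (2 * DD m) - (1 - 2 / DD m)) 0 :=
    mul_nonneg hKp.le (le_max_right _ _)
  have haz : 0 ≤ KK m * max (-(1 / 2 - 3 / DD m) - (w : ℝ) / (2 * DD m)) 0 :=
    mul_nonneg hKp.le (le_max_right _ _)
  have hbx : 0 ≤ ((v : ℝ) / (2 * DD m)) ^ 2 + 2 * max ((v : ℝ) / (2 * DD m)) 0 :=
    add_nonneg (sq_nonneg _) (mul_nonneg (by norm_num) (le_max_right _ _))
  have hby : 0 ≤ KK m * max ((v : ℝ) / (2 * DD m) - 1 / 2) 0 :=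
    mul_nonneg hKp.le (le_max_right _ _)
  have hbz : 0 ≤ KK m * max (-1 - (v : ℝ) / (2 * DD m)) 0 :=
    mul_nonneg hKp.le (le_max_right _ _)
  unfold F0 at a0
  unfold F1 at a1
  refine ⟨?_, ?_, ?_, ?_⟩
  · by_contra hc
    have c : w ≤ -(6 * m + 3 : ℤ) + 5 := by omega
    have c' : (w : ℝ) ≤ -DD m + 5 := by
      have : (w : ℝ) ≤ ((-(6 * m + 3 : ℤ) + 5 : ℤ) : ℝ) := by exact_mod_cast c
      push_cast at this
      unfold DD; linarith
    have c2 : 1 / (2 * DD m) ≤ max (-(1 / 2 - 3 / DD m) - (w : ℝ) / (2 * DD m)) 0 := by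
      refine le_trans ?_ (le_max_left _ _)
      rw [div_le_iff₀ (by linarith)]
      field_simp
      linarith
    have c3 := mul_le_mul_of_nonneg_left c2 hKp.le
    linarith
  · by_contra hc
    have c : 2 * (6 * m + 3 : ℤ) - 3 ≤ w := by omega
    have c' : 2 * DD m - 3 ≤ (w : ℝ) := by
      have : ((2 * (6 * m + 3 : ℤ) - 3 : ℤ) : ℝ) ≤ (w : ℝ) := by exact_mod_cast c
      push_cast at this
      unfold DD; linarith
    have c2 : 1 / (2 * DD m) ≤ max ((w : ℝ) / (2 * DD m) - (1 - 2 / DD m)) 0 := by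
      refine le_trans ?_ (le_max_left _ _)
      rw [div_le_iff₀ (by linarith)]
      field_simp
      linarith
    have c3 := mul_le_mul_of_nonneg_left c2 hKp.le
    linarith
  · by_contra hc
    have c : v ≤ -2 * (6 * m + 3 : ℤ) - 1 := by omega
    have c' : (v : ℝ) ≤ -2 * DD m - 1 := by
      have : (v : ℝ) ≤ ((-2 * (6 * m + 3 : ℤ) - 1 : ℤ) : ℝ) := by exact_mod_cast c
      push_cast at this
      unfold DD; linarith
    have c2 : 1 / (2 * DD m) ≤ max (-1 - (v : ℝ) / (2 * DD m)) 0 := by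
      refine le_trans ?_ (le_max_left _ _)
      rw [div_le_iff₀ (by linarith)]
      field_simp
      linarith
    have c3 := mul_le_mul_of_nonneg_left c2 hKp.le
    linarith
  · by_contra hc
    have c : (6 * m + 3 : ℤ) + 1 ≤ v := by omega
    have c' : DD m + 1 ≤ (v : ℝ) := by
      have : (((6 * m + 3 : ℤ) + 1 : ℤ) : ℝ) ≤ (v : ℝ) := by exact_mod_cast c
      push_cast at this
      unfold DD; linarith
    have c2 : 1 / (2 * DD m) ≤ max ((v : ℝ) / (2 * DD m) - 1 / 2) 0 := by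
      refine le_trans ?_ (le_max_left _ _)
      rw [div_le_iff₀ (by linarith)]
      field_simp
      linarith
    have c3 := mul_le_mul_of_nonneg_left c2 hKp.le
    linarith

end Helper952Jit
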