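import Pool.Agent.Helper952_Jit.Count

/-!
# The exchange argument
-/

set_option autoImplicit false

namespace Helper952Jit

/-- the sequence with the middle part replaced -/
def swapSeq (m t : ℕ) (S : ℕ → Fin 3) (p : ℕ) : Fin 3 :=
  if 2 * m + 2 < p ∧ p ≤ 4 * m + 2 then
    (if p < t then (if p % 2 = 1 then 1 else 0) else if p = t then 2 else
      (if p % 2 = 1 then 0 else 1)) else S p

section
variable {m t : ℕ} {S : ℕ → Fin 3}

lemma swap_low (i : Fin 3) {k : ℕ} (hk : k ≤ 2 * m + 2) :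
    cnt (swapSeq m t S) i k = cnt S i k := by
  refine cnt_congr i fun l _ hl => ?_
  rw [swapSeq, if_neg (by omega)]

lemma swap_A (hA : stA S (2 * m + 2)) (ht2 : t ≤ 4 * m + 2) {k : ℕ} (h1 : 2 * m + 2 ≤ k)
    (h2 : k < t) : stA (swapSeq m t S) k := by
  refine stA_run (a := 2 * m + 2) (b := t - 1) ?_ ?_ h1 (by omega)
  · obtain ⟨a, b, c⟩ := hA
    exact ⟨by rw [swap_low _ le_rfl, a], by rw [swap_low _ le_rfl, b], by rw [swap_low _ le_rfl, c]⟩
  · intro p hp hp'
    rw [swapSeq, if_pos (by omega), if_pos (by omega)]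

lemma swap_B (hA : stA S (2 * m + 2)) (ht1 : 2 * m + 3 ≤ t) (ht2 : t ≤ 4 * m + 2) {k : ℕ}
    (h1 : t ≤ k) (h2 : k ≤ 4 * m + 2) : stB (swapSeq m t S) k := by
  refine stB_run (a := t) (b := 4 * m + 2) (by omega) ?_ ?_ h1 (by omega)
  · have h3 := swap_A (t := t) hA ht2 (k := t - 1) (by omega) (by omega)
    have h4 : swapSeq m t S (t - 1 + 1) = 2 := by
      rw [Nat.sub_add_cancel (by omega), swapSeq, if_pos (by omega), if_neg (by omega),
        if_pos rfl]
    have h5 := stA_stB h3 h4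
    rwa [Nat.sub_add_cancel (by omega)] at h5
  · intro p hp hp'
    rw [swapSeq, if_pos (by omega), if_neg (by omega), if_neg (by omega)]

lemma swap_high (hA : stA S (2 * m + 2)) (hB : stB S (4 * m + 2)) (ht1 : 2 * m + 3 ≤ t)
    (ht2 : t ≤ 4 * m + 2) (i : Fin 3) {k : ℕ} (hk : 4 * m + 2 ≤ k) :
    cnt (swapSeq m t S) i k = cnt S i k := by
  induction k, hk using Nat.le_induction with
  | base =>
    obtain ⟨a, b, c⟩ := swap_B (t := t) hA ht1 ht2 ht2 (k := 4 * m + 2) le_rfl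
    obtain ⟨a', b', c'⟩ := hB
    fin_cases i
    · exact a.trans a'.symm
    · exact b.trans b'.symm
    · exact c.trans c'.symm
  | succ k hk ih =>
    have h : swapSeq m t S (k + 1) = S (k + 1) := by rw [swapSeq, if_neg (by omega)]
    rw [cnt_succ, cnt_succ, ih, h]

lemma swap_isSeq (hS : IsSeq (dem m) S) (hA : stA S (2 * m + 2)) (hB : stB S (4 * m + 2))
    (ht1 : 2 * m + 3 ≤ t) (ht2 : t ≤ 4 * m + 2) : IsSeq (dem m) (swapSeq m t S) := by
  intro i
  rw [← hS i, dem_sum]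
  exact swap_high hA hB ht1 ht2 i (by omega)

/-- The time of the rare model. -/
lemma exists_time (hW : Win m S) (hS : cnt S 2 (6 * m + 3) = 1) : ∃ t, 2 * m + 3 ≤ t ∧
    t ≤ 4 * m + 2 ∧ S t = 2 ∧ cnt S 2 (t - 1) = 0 ∧ (∀ k, 2 * m + 2 ≤ k → k < t → stA S k) ∧
    ∀ k, t ≤ k → k ≤ 4 * m + 2 → stB S k := by
  classical
  have hA : stA S (2 * m + 2) := by
    rcases win_struct hW hS (k := 2 * m + 2) le_rfl (by omega) with h | h
    · exact h.1
    · omega
  have hB : stB S (4 * m + 2) := by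
    rcases win_struct hW hS (k := 4 * m + 2) (by omega) le_rfl with h | h
    · omega
    · exact h.1
  have hex : ∃ k, 0 < cnt S 2 k := ⟨4 * m + 2, by rw [hB.2.2]; omega⟩
  set t := Nat.find hex with htdef
  have h1 : 0 < cnt S 2 t := Nat.find_spec hex
  have h2 : ∀ k < t, cnt S 2 k = 0 := fun k hk => by
    have := Nat.find_min hex hk
    omega
  have h3 : 2 * m + 3 ≤ t := by
    by_contra hc
    have := cnt_mono S 2 (show t ≤ 2 * m + 2 by omega)
    rw [hA.2.2] at this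
    omega
  have h4 : t ≤ 4 * m + 2 := Nat.find_min' hex (by rw [hB.2.2]; omega)
  have h5 : ∀ k, t ≤ k → k ≤ 6 * m + 3 → cnt S 2 k = 1 := by
    intro k hk hk'
    have a := cnt_mono S 2 hk
    have b := cnt_mono S 2 hk'
    omega
  refine ⟨t, h3, h4, ?_, h2 _ (by omega), ?_, ?_⟩
  · by_contra hc
    have h6 := cnt_succ S 2 (t - 1)
    rw [Nat.sub_add_cancel (by omega), if_neg hc, h2 (t - 1) (by omega)] at h6
    omega
  · intro k hk hk'
    rcases win_struct hW hS (k := k) hk (by omega) with h | h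
    · exact h.1
    · have a := h.1.2.2
      rw [h2 k hk'] at a
      omega
  · intro k hk hk'
    rcases win_struct hW hS (k := k) (by omega) hk' with h | h
    · have a := h.1.2.2
      rw [h5 k hk (by omega)] at a
      omega
    · exact h.1

end

/-! ### Costs -/

/-- the cost at one time -/
noncomputable def tc (m : ℕ) (F : Fin 3 → ℝ → ℝ) (S : ℕ → Fin 3) (k : ℕ) : ℝ :=
  ∑ i, F i (cnt S i k - k * ((dem m i : ℝ) / ((6 * m + 3 : ℕ) : ℝ)))

lemma totalDev_eq (m : ℕ) (F : Fin 3 → ℝ → ℝ) (S : ℕ → Fin 3) :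
    totalDev (dem m) F S = ∑ k ∈ Finset.Icc 1 (6 * m + 3), tc m F S k := by
  unfold totalDev tc
  rw [Finset.sum_comm, dem_sum]

/-- the cost in the state before the rare model -/
noncomputable def costA (m : ℕ) (F : Fin 3 → ℝ → ℝ) (k : ℕ) : ℝ :=
  F 0 (((k / 2 : ℕ) : ℝ) - k * ((dem m 0 : ℝ) / ((6 * m + 3 : ℕ) : ℝ))) +
  F 1 ((((k + 1) / 2 : ℕ) : ℝ) - k * ((dem m 1 : ℝ) / ((6 * m + 3 : ℕ) : ℝ))) +
  F 2 (((0 : ℕ) : ℝ) - k * ((dem m 2 : ℝ) / ((6 * m + 3 : ℕ) : ℝ)))

/-- the cost in the state after the rare model -/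
noncomputable def costB (m : ℕ) (F : Fin 3 → ℝ → ℝ) (k : ℕ) : ℝ :=
  F 0 ((((k - 1) / 2 : ℕ) : ℝ) - k * ((dem m 0 : ℝ) / ((6 * m + 3 : ℕ) : ℝ))) +
  F 1 (((k / 2 : ℕ) : ℝ) - k * ((dem m 1 : ℝ) / ((6 * m + 3 : ℕ) : ℝ))) +
  F 2 (((1 : ℕ) : ℝ) - k * ((dem m 2 : ℝ) / ((6 * m + 3 : ℕ) : ℝ)))

lemma tc_A {m : ℕ} {F : Fin 3 → ℝ → ℝ} {S : ℕ → Fin 3} {k : ℕ} (h : stA S k) :
    tc m F S k = costA m F k := by
  unfold tc costA
  rw [Fin.sum_univ_three, h.1, h.2.1, h.2.2]

lemma tc_B {m : ℕ} {F : Fin 3 → ℝ → ℝ} {S : ℕ → Fin 3} {k : ℕ} (h : stB S k) :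
    tc m F S k = costB m F k := by
  unfold tc costB
  rw [Fin.sum_univ_three, h.1, h.2.1, h.2.2]

/-- The cost as a function of the time of the rare model. -/
noncomputable def gs (m : ℕ) (F : Fin 3 → ℝ → ℝ) (t : ℕ) : ℝ :=
  ∑ k ∈ Finset.Ico (2 * m + 3) t, (costA m F k - costB m F k)

lemma sum_mode (A B : ℕ → ℝ) {a b t : ℕ} (h : t ≤ b) :
    ∑ k ∈ Finset.Ico a b, (if k < t then A k else B k) =
      ∑ k ∈ Finset.Ico a b, B k + ∑ k ∈ Finset.Ico a t, (A k - B k) := by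
  have h1 : ∀ k, (if k < t then A k else B k) = B k + if k < t then (A k - B k) else 0 := by
    intro k
    split_ifs <;> ring
  simp only [h1]
  rw [Finset.sum_add_distrib]
  congr 1
  rw [← Finset.sum_filter]
  congr 1
  ext k
  simp only [Finset.mem_filter, Finset.mem_Ico]
  omega

/-- An optimal sequence puts the rare model at a best time. -/
lemma opt_time {m : ℕ} {F : Fin 3 → ℝ → ℝ} {S : ℕ → Fin 3} (hopt : Optimal (dem m) F S)
    (hW : Win m S) : ∃ t, 2 * m + 3 ≤ t ∧ t ≤ 4 * m + 2 ∧ S t = 2 ∧ cnt S 2 (t - 1) = 0 ∧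
      ∀ t', 2 * m + 3 ≤ t' → t' ≤ 4 * m + 2 → gs m F t ≤ gs m F t' := by
  have hS := hopt.1
  have hS2 : cnt S 2 (6 * m + 3) = 1 := by
    have := hS 2
    rwa [dem_sum] at this
  obtain ⟨t, h1, h2, h3, h4, hA, hB⟩ := exists_time hW hS2
  refine ⟨t, h1, h2, h3, h4, ?_⟩
  intro t' h1' h2'
  have hA0 := hA (2 * m + 2) le_rfl (by omega)
  have hB0 := hB (4 * m + 2) h2 le_rfl
  have hle := hopt.2 _ (swap_isSeq hS hA0 hB0 h1' h2')
  rw [totalDev_eq, totalDev_eq, ← sub_nonneg, ← Finset.sum_sub_distrib] at hle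
  have hsub : Finset.Ico (2 * m + 3) (4 * m + 2) ⊆ Finset.Icc 1 (6 * m + 3) := by
    intro k hk
    rw [Finset.mem_Ico] at hk
    rw [Finset.mem_Icc]
    omega
  rw [← Finset.sum_subset hsub] at hle
  · have e1 : ∀ k ∈ Finset.Ico (2 * m + 3) (4 * m + 2), tc m F (swapSeq m t' S) k - tc m F S k =
        (if k < t' then costA m F k else costB m F k) -
          (if k < t then costA m F k else costB m F k) := by
      intro k hk
      rw [Finset.mem_Ico] at hk
      congr 1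
      · split_ifs with h
        · exact tc_A (swap_A hA0 h2' (by omega) h)
        · exact tc_B (swap_B hA0 h1' h2' (by omega) (by omega))
      · split_ifs with h
        · exact tc_A (hA k (by omega) h)
        · exact tc_B (hB k (by omega) (by omega))
    rw [Finset.sum_congr rfl e1, Finset.sum_sub_distrib, sum_mode _ _ h2', sum_mode _ _ h2] at hle
    unfold gs
    linarith
  · intro k hk hk'
    rw [Finset.mem_Icc] at hk
    rw [Finset.mem_Ico] at hk'
    have e2 : ∀ i, cnt (swapSeq m t' S) i k = cnt S i k := by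
      intro i
      rcases Nat.lt_or_ge k (2 * m + 3) with h | h
      · exact swap_low i (by omega)
      · exact swap_high hA0 hB0 h1' h2' i (by omega)
    unfold tc
    simp only [e2, sub_self]

end Helper952Jit
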